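import Mathlib
import Pool.Agent.H870R4.Noz.Stmts

set_option autoImplicit false

open MeasureTheory Set
open scoped ContDiff

namespace H870N.K9

/-- the plane as a product -/
noncomputable def pr : E2 ≃ᵐ ℝ × ℝ :=
  (MeasurableEquiv.toLp 2 (Fin 2 → ℝ)).symm.trans MeasurableEquiv.finTwoArrow

lemma pr_apply (u : E2) : pr u = (u 0, u 1) := rfl

lemma pr_mp : MeasurePreserving (pr : E2 → ℝ × ℝ) volume volume :=
  (volume_preserving_finTwoArrow ℝ).comp
    (EuclideanSpace.volume_preserving_symm_measurableEquiv_toLp (Fin 2))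

lemma rect_eq (L R h : ℝ) : rect L R h = pr ⁻¹' (Ioo L R ×ˢ Ioo (-h) h) := by
  ext u
  simp only [rect, mem_ofPred_eq, mem_preimage, pr_apply, mem_prod, mem_Ioo, abs_lt]
  tauto

lemma rect_meas (L R h : ℝ) : MeasurableSet (rect L R h) := by
  rw [rect_eq]
  exact pr.measurable (measurableSet_Ioo.prod measurableSet_Ioo)

lemma rect_open (L R h : ℝ) : IsOpen (rect L R h) := by
  have h0 : Continuous fun u : E2 => u 0 := EuclideanSpace.proj (𝕜 := ℝ) (0 : Fin 2) |>.continuous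
  have h1 : Continuous fun u : E2 => u 1 := EuclideanSpace.proj (𝕜 := ℝ) (1 : Fin 2) |>.continuous
  exact ((isOpen_lt continuous_const h0).inter ((isOpen_lt h0 continuous_const).inter
    (isOpen_lt h1.abs continuous_const)))

lemma rect_fin (L R h : ℝ) : volume (rect L R h) ≠ ⊤ := by
  rw [rect_eq, pr_mp.measure_preimage_emb pr.measurableEmbedding, Measure.volume_eq_prod,
    Measure.prod_prod, Real.volume_Ioo, Real.volume_Ioo]
  exact ENNReal.mul_ne_top ENNReal.ofReal_ne_top ENNReal.ofReal_ne_top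

lemma int_rect (L R h : ℝ) (hh : 0 < h) (φ : ℝ → ℝ) :
    ∫ u in rect L R h, φ (u 0) = 2 * h * ∫ x in Ioo L R, φ x := by
  have h1 := pr_mp.setIntegral_preimage_emb pr.measurableEmbedding
    (fun z : ℝ × ℝ => φ z.1 * (fun _ : ℝ => (1 : ℝ)) z.2) (Ioo L R ×ˢ Ioo (-h) h)
  rw [Measure.volume_eq_prod, setIntegral_prod_mul (μ := volume) (ν := volume) φ
    (fun _ => (1 : ℝ))] at h1
  rw [rect_eq]
  simp only [pr_apply, mul_one] at h1
  rw [h1]
  simp only [integral_const, MeasurableSet.univ, measureReal_restrict_apply, univ_inter,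
    Real.volume_real_Ioo, smul_eq_mul, mul_one]
  rw [max_eq_left (by linarith)]
  ring

lemma rect_intble {L R h : ℝ} {φ : ℝ → ℝ} (hφ : IntegrableOn φ (Ioo L R)) :
    IntegrableOn (fun u : E2 => φ (u 0)) (rect L R h) := by
  have h1 : IntegrableOn (fun z : ℝ × ℝ => φ z.1) (Ioo L R ×ˢ Ioo (-h) h)
      (volume : Measure (ℝ × ℝ)) := by
    rw [Measure.volume_eq_prod, IntegrableOn, ← Measure.prod_restrict]
    exact Integrable.comp_fst hφ _
  rw [rect_eq]
  exact (pr_mp.integrableOn_comp_preimage pr.measurableEmbedding).2 h1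

lemma rect_mono {L R h L' R' h' : ℝ} (h1 : L' ≤ L) (h2 : R ≤ R') (h3 : h ≤ h') :
    rect L R h ⊆ rect L' R' h' := fun _ hu =>
  ⟨lt_of_le_of_lt h1 hu.1, lt_of_lt_of_le hu.2.1 h2, lt_of_lt_of_le hu.2.2 h3⟩

/-! ### one-dimensional integrals -/

lemma ind_int {l r p q : ℝ} (h1 : l < p) (h2 : p ≤ q) (h3 : q < r) (φ : ℝ → ℝ) :
    ∫ x in Ioo l r, (Ioc p q).indicator φ x = ∫ x in p..q, φ x := by
  rw [setIntegral_indicator measurableSet_Ioc, intervalIntegral.integral_of_le h2,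
    inter_eq_right.mpr]
  intro x hx
  exact ⟨lt_trans h1 hx.1, lt_of_le_of_lt hx.2 h3⟩

lemma ind_intble {l r p q : ℝ} {φ : ℝ → ℝ} (hφ : Continuous φ) :
    IntegrableOn ((Ioc p q).indicator φ) (Ioo l r) :=
  ((hφ.integrableOn_Ioc (a := p) (b := q)).integrable_indicator measurableSet_Ioc).integrableOn

lemma psi_int {l r a b c d A B D ϑ : ℝ} {gp gg : ℝ → ℝ} (hgp : Continuous gp)
    (hgg : Continuous gg) (hla : l < a) (hab : a < b) (hbc : b < c) (hcd : c < d) (hdr : d < r)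
    (i1 : (∫ x in a..b, gp x) = 1) (i2 : (∫ x in c..d, gp x) = -1) :
    IntegrableOn (fun x => A + B * (Ioc a d).indicator gg x +
      D * ((1 - ϑ) * (Ioc a b).indicator gp x + (Ioc c d).indicator gp x)) (Ioo l r) ∧
    ∫ x in Ioo l r, (A + B * (Ioc a d).indicator gg x +
      D * ((1 - ϑ) * (Ioc a b).indicator gp x + (Ioc c d).indicator gp x)) =
    A * (r - l) + B * (∫ x in a..d, gg x) - D * ϑ := by
  have e1 : IntegrableOn (fun _ : ℝ => A) (Ioo l r) := by
    simp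
  have e2 : IntegrableOn (fun x : ℝ => B * (Ioc a d).indicator gg x) (Ioo l r) :=
    (ind_intble hgg).const_mul B
  have e3 : IntegrableOn (fun x : ℝ => (1 - ϑ) * (Ioc a b).indicator gp x) (Ioo l r) :=
    (ind_intble hgp).const_mul _
  have e4 : IntegrableOn (fun x : ℝ => (Ioc c d).indicator gp x) (Ioo l r) :=
    ind_intble hgp
  have e5 : IntegrableOn (fun x : ℝ => D * ((1 - ϑ) * (Ioc a b).indicator gp x +
      (Ioc c d).indicator gp x)) (Ioo l r) := (e3.add e4).const_mul D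
  have e12 : IntegrableOn (fun x : ℝ => A + B * (Ioc a d).indicator gg x) (Ioo l r) := e1.add e2
  refine ⟨e12.add e5, ?_⟩
  rw [integral_add e12 e5, integral_add e1 e2, integral_const_mul, integral_const_mul,
    integral_add e3 e4, integral_const_mul, ind_int hla (by linarith) hdr,
    ind_int hla (by linarith) (by linarith), ind_int (by linarith) (by linarith) hdr, i1, i2]
  simp only [integral_const, MeasurableSet.univ, measureReal_restrict_apply, univ_inter,
    Real.volume_real_Ioo, smul_eq_mul]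
  rw [max_eq_left (by linarith)]
  ring

/-- the pointwise inequality -/
lemma pw {x y ε M : ℝ} (hx : |x| ≤ M) (hy : |y| ≤ M) (hε : 0 ≤ ε) (h : ε * M ≤ 1 / 2) :
    1 / 2 ≤ 1 + ε * x ∧
    (1 + ε * y) ^ 2 / (1 + ε * x) ≤ 1 + ε * (2 * y - x) + 8 * M ^ 2 * ε ^ 2 := by
  have hx' := abs_le.mp hx
  have hy' := abs_le.mp hy
  have h1 : 1 / 2 ≤ 1 + ε * x := by nlinarith [mul_le_mul_of_nonneg_left hx'.1 hε]
  refine ⟨h1, ?_⟩
  rw [div_le_iff₀ (by linarith)]
  have h2 : (x - y) ^ 2 ≤ 4 * M ^ 2 := by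
    have : |x - y| ≤ 2 * M := by
      rw [abs_le]; constructor <;> linarith [hx'.1, hx'.2, hy'.1, hy'.2]
    calc (x - y) ^ 2 = |x - y| ^ 2 := (sq_abs _).symm
      _ ≤ (2 * M) ^ 2 := by gcongr
      _ = 4 * M ^ 2 := by ring
  have h3 : (x - y) ^ 2 ≤ 8 * M ^ 2 * (1 + ε * x) := by nlinarith [sq_nonneg M]
  have h4 : 0 ≤ ε ^ 2 * (8 * M ^ 2 * (1 + ε * x) - (x - y) ^ 2) :=
    mul_nonneg (sq_nonneg _) (by linarith)
  nlinarith [h4]

/-! ### the kinetic energy in the coordinates -/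

/-- the integrand in the coordinates -/
noncomputable def w (V : E2 → ℝ) (a b c d T ε t : ℝ) (u : E2) : ℝ :=
  (1 + ε * Th a b c d T t (u 0)) ^ 2 / (1 + ε * (et a b c d T t (u 0) * V u ^ 2)) / 2

/-- bounds for the perturbation -/
def Bd (a b c d T M : ℝ) (t : ℝ) : Prop := ∀ x : ℝ, ∀ v : ℝ, 0 < v → v ≤ 2 →
      |et a b c d T t x * v ^ 2| ≤ M ∧ |Th a b c d T t x| ≤ M

lemma bounds {a b c d T : ℝ} (hprof : TaskProf) (hab : a < b) (hbc : b < c) (hcd : c < d)
    (hT : 0 < T) : ∃ M : ℝ, 1 ≤ M ∧ ∀ t ∈ Ioo 0 T, Bd a b c d T M t := by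
  obtain ⟨-, -, -, -, hg, -, -, -, ⟨C, hC⟩, -, -⟩ := hprof a b c d T hab hbc hcd hT
  have hC0 : 0 ≤ C := le_trans (abs_nonneg _) (hC 0)
  have hC1 : 0 ≤ 4 * T ^ 2 * C := by positivity
  refine ⟨1 + T + 4 * T ^ 2 * C, by linarith, ?_⟩
  intro t ht x v hv hv2
  have ht0 := ht.1
  have ht1 := ht.2
  constructor
  · have h1 : |t * (T - t)| ≤ T ^ 2 := by
      rw [abs_of_nonneg (mul_nonneg ht0.le (by linarith))]
      nlinarith
    have h2 : |v ^ 2| ≤ 4 := by
      rw [abs_of_nonneg (sq_nonneg v)]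
      nlinarith
    unfold et
    rw [abs_mul, abs_mul, abs_neg]
    calc |t * (T - t)| * |gp a b c d x| * |v ^ 2| ≤ T ^ 2 * C * 4 := by
          gcongr
          exact hC x
      _ ≤ 1 + T + 4 * T ^ 2 * C := by linarith
  · unfold Th
    rw [abs_mul]
    have h1 : |T - 2 * t| ≤ T := by rw [abs_le]; constructor <;> linarith
    have h2 : |gg a b c d x| ≤ 1 := by
      rw [abs_le]; constructor <;> linarith [(hg x).1, (hg x).2]
    calc |T - 2 * t| * |gg a b c d x| ≤ T * 1 := by gcongr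
      _ ≤ 1 + T + 4 * T ^ 2 * C := by linarith

section main

variable {Y Xi : E2 → E2} {V r : E2 → ℝ} {L R h0 L1 R1 h a b c d lm lp T ε M : ℝ}

lemma img_open (hG : Geo Y Xi V r L R h0) (hA : rect L1 R1 h ⊆ rect L R h0) :
    IsOpen (Y '' rect L1 R1 h) := by
  have h1 : Y '' rect L1 R1 h = (Y '' rect L R h0) ∩ Xi ⁻¹' (rect L1 R1 h) := by
    ext x
    constructor
    · rintro ⟨u, hu, rfl⟩
      refine ⟨⟨u, hA hu, rfl⟩, ?_⟩
      show Xi (Y u) ∈ rect L1 R1 h
      rw [hG.left u (hA hu)]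
      exact hu
    · rintro ⟨⟨u, hu, rfl⟩, hx⟩
      have hx' : Xi (Y u) ∈ rect L1 R1 h := hx
      rw [hG.left u hu] at hx'
      exact ⟨u, hx', rfl⟩
  rw [h1]
  exact hG.hXi.continuousOn.isOpen_inter_preimage hG.hopen (rect_open _ _ _)

/-- energy density on the image -/
lemma dens (hG : Geo Y Xi V r L R h0) (t : ℝ) {u : E2} (hu : u ∈ rect L R h0) :
    ‖vel Y Xi V a b c d T ε t (Y u)‖ ^ 2 = ((1 + ε * Th a b c d T t (u 0)) /
      (1 + ε * et a b c d T t (u 0) * V u ^ 2)) ^ 2 * V u ^ 2 := by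
  unfold vel vel0
  rw [hG.left u hu, norm_smul, norm_smul, hG.n0 u hu, Real.norm_eq_abs, Real.norm_eq_abs, mul_pow,
    sq_abs, abs_of_nonneg (sq_nonneg (V u))]
  have := (hG.Vpos u hu).1.ne'
  field_simp

lemma w_bd {t : ℝ} (hB : Bd a b c d T M t) (hε : 0 ≤ ε) (hεM : ε * M ≤ 1 / 2)
    {u : E2} (hV : 0 < V u ∧ V u ≤ 2) :
    0 < 1 + ε * (et a b c d T t (u 0) * V u ^ 2) ∧ 0 ≤ w V a b c d T ε t u ∧
    w V a b c d T ε t u ≤ 1 / 2 + ε * (Th a b c d T t (u 0) -
      et a b c d T t (u 0) * V u ^ 2 / 2) + 4 * M ^ 2 * ε ^ 2 ∧ w V a b c d T ε t u ≤ 3 := by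
  obtain ⟨h1, h2⟩ := hB (u 0) (V u) hV.1 hV.2
  obtain ⟨h3, h4⟩ := pw h1 h2 hε hεM
  have hM : 0 ≤ M := le_trans (abs_nonneg _) h1
  have h5 : w V a b c d T ε t u ≤ 1 / 2 + ε * (Th a b c d T t (u 0) -
      et a b c d T t (u 0) * V u ^ 2 / 2) + 4 * M ^ 2 * ε ^ 2 := by
    unfold w
    linarith
  refine ⟨by linarith, ?_, h5, h5.trans ?_⟩
  · unfold w
    have : 0 < 1 + ε * (et a b c d T t (u 0) * V u ^ 2) := by linarith
    positivity
  · have h6 := abs_le.mp h1
    have h7 := abs_le.mp h2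
    have h8 : 4 * M ^ 2 * ε ^ 2 ≤ 1 := by
      have : (ε * M) ^ 2 ≤ (1 / 2) ^ 2 := by
        have : 0 ≤ ε * M := mul_nonneg hε hM
        gcongr
      nlinarith
    have h9 : ε * (Th a b c d T t (u 0) - et a b c d T t (u 0) * V u ^ 2 / 2) ≤ ε * (3 / 2 * M) := by
      gcongr
      linarith [h6.1, h7.2]
    nlinarith

lemma w_int {t : ℝ} (hV : ContinuousOn V (rect L R h0)) (hVp : ∀ u ∈ rect L R h0, 0 < V u ∧ V u ≤ 2)
    (hgp : Continuous (gp a b c d)) (hgg : Continuous (gg a b c d))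
    (hB : Bd a b c d T M t) (hε : 0 ≤ ε) (hεM : ε * M ≤ 1 / 2)
    (hS : rect (lm + t) (lp + t) h ⊆ rect L R h0) :
    IntegrableOn (w V a b c d T ε t) (rect (lm + t) (lp + t) h) := by
  have h0 : Continuous fun u : E2 => u 0 := EuclideanSpace.proj (𝕜 := ℝ) (0 : Fin 2) |>.continuous
  refine ⟨ContinuousOn.aestronglyMeasurable ?_ (rect_meas _ _ _),
    .restrict_of_bounded (C := 3) (rect_fin _ _ _).lt_top ?_⟩
  · unfold w
    refine ContinuousOn.div_const (ContinuousOn.div ?_ ?_ ?_) 2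
    · unfold Th
      have : Continuous fun u : E2 => gg a b c d (u 0) := hgg.comp h0
      exact (by fun_prop : Continuous _).continuousOn
    · unfold et
      have h1 : ContinuousOn (fun u : E2 => gp a b c d (u 0)) (rect (lm + t) (lp + t) h) :=
        (hgp.comp h0).continuousOn
      have h2 := hV.mono hS
      fun_prop
    · intro u hu
      exact (w_bd hB hε hεM (hVp u (hS hu))).1.ne'
  · refine ae_restrict_of_forall_mem (rect_meas _ _ _) fun u hu => ?_
    obtain ⟨-, h1, -, h2⟩ := w_bd hB hε hεM (hVp u (hS hu))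
    rw [Real.norm_eq_abs, abs_of_nonneg h1]
    exact h2

lemma inner_eq {t : ℝ} (hCV : TaskCV) (hG : Geo Y Xi V r L R h0)
    (hA : rect L1 R1 h ⊆ rect L R h0)
    (hgp : Continuous (gp a b c d)) (hgg : Continuous (gg a b c d))
    (hB : Bd a b c d T M t) (hε : 0 ≤ ε) (hεM : ε * M ≤ 1 / 2)
    (hl : L1 ≤ lm + t) (hr : lp + t ≤ R1) :
    ∫⁻ x in Y '' rect L1 R1 h, ENNReal.ofReal (‖vel Y Xi V a b c d T ε t x‖ ^ 2 / 2 *
      rho Xi V r a b c d T lm lp ε t x) =
    ENNReal.ofReal (∫ u in rect (lm + t) (lp + t) h, w V a b c d T ε t u) := by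
  classical
  have hBA : rect (lm + t) (lp + t) h ⊆ rect L1 R1 h := rect_mono hl hr le_rfl
  have hint := w_int (ε := ε) hG.hV hG.Vpos hgp hgg hB hε hεM (hBA.trans hA)
  set B := rect (lm + t) (lp + t) h with hBdef
  have key : ∀ u ∈ rect L1 R1 h, ‖vel Y Xi V a b c d T ε t (Y u)‖ ^ 2 / 2 *
      rho Xi V r a b c d T lm lp ε t (Y u) = B.indicator (w V a b c d T ε t) u * (V u ^ 2 * r u) := by
    intro u hu
    rw [dens hG t (hA hu)]
    unfold rho
    rw [hG.left u (hA hu)]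
    by_cases hub : u ∈ B
    · rw [indicator_of_mem hub, if_pos ⟨hub.1, hub.2.1⟩]
      have h1 := (w_bd hB hε hεM (hG.Vpos u (hA hu))).1.ne'
      have h2 : 1 + ε * et a b c d T t (u 0) * V u ^ 2 ≠ 0 := by
        rw [mul_assoc]; exact h1
      unfold w
      rw [← mul_assoc ε]
      field_simp
    · rw [indicator_of_notMem hub, if_neg, mul_zero, zero_mul]
      rintro ⟨h1, h2⟩
      exact hub ⟨h1, h2, hu.2.2⟩
  have key2 : ∀ u ∈ rect L1 R1 h, (‖vel Y Xi V a b c d T ε t (Y u)‖ ^ 2 / 2 *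
      rho Xi V r a b c d T lm lp ε t (Y u)) / (V u ^ 2 * r u) =
      B.indicator (w V a b c d T ε t) u := by
    intro u hu
    rw [key u hu]
    have h1 := (hG.Vpos u (hA hu)).1
    have h2 := (hG.rpos u (hA hu)).1
    field_simp
  have hi1 : IntegrableOn (B.indicator (w V a b c d T ε t)) (rect L1 R1 h) :=
    (hint.integrable_indicator (rect_meas _ _ _)).integrableOn
  have hcv := hCV Y Xi V r L R h0 hG (rect L1 R1 h) hA (rect_meas _ _ _)
    (fun x => ‖vel Y Xi V a b c d T ε t x‖ ^ 2 / 2 * rho Xi V r a b c d T lm lp ε t x)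
  have hi2 : IntegrableOn (fun x => ‖vel Y Xi V a b c d T ε t x‖ ^ 2 / 2 *
      rho Xi V r a b c d T lm lp ε t x) (Y '' rect L1 R1 h) := by
    refine hcv.1.mpr ?_
    refine hi1.congr_fun (fun u hu => (key2 u hu).symm) (rect_meas _ _ _)
  have hO := (img_open hG hA).measurableSet
  rw [← ofReal_integral_eq_lintegral_ofReal hi2, hcv.2,
    setIntegral_congr_fun (rect_meas _ _ _) key2, setIntegral_indicator (rect_meas _ _ _),
    inter_eq_right.mpr hBA]
  refine ae_restrict_of_forall_mem hO ?_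
  rintro x ⟨u, hu, rfl⟩
  show 0 ≤ ‖vel Y Xi V a b c d T ε t (Y u)‖ ^ 2 / 2 * rho Xi V r a b c d T lm lp ε t (Y u)
  rw [key u hu]
  have h1 := (hG.Vpos u (hA hu)).1
  have h2 := (hG.rpos u (hA hu)).1
  refine mul_nonneg (indicator_nonneg (fun v hv => ?_) _) (by positivity)
  exact (w_bd hB hε hεM (hG.Vpos v (hA (hBA hv)))).2.1

lemma aem_aux {α : Type*} [MeasurableSpace α] {μ : Measure α} {τ v r' p g χ1 χ2 : α → ℝ}
    (h1 : AEMeasurable τ μ) (h2 : AEMeasurable v μ) (h3 : AEMeasurable r' μ)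
    (h4 : AEMeasurable p μ) (h5 : AEMeasurable g μ) (h6 : AEMeasurable χ1 μ)
    (h7 : AEMeasurable χ2 μ) :
    AEMeasurable (fun z => χ1 z * χ2 z * (((1 + ε * ((T - 2 * τ z) * g z)) /
      (1 + ε * (-(τ z * (T - τ z)) * p z) * v z ^ 2)) ^ 2 * v z ^ 2 / 2 * (r' z *
      (1 + ε * (-(τ z * (T - τ z)) * p z) * v z ^ 2)))) μ := by
  fun_prop

lemma aem (hG : Geo Y Xi V r L R h0) (hA : rect L1 R1 h ⊆ rect L R h0)
    (hgp : Continuous (gp a b c d)) (hgg : Continuous (gg a b c d)) :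
    AEMeasurable (fun z : ℝ × E2 => ENNReal.ofReal (‖vel Y Xi V a b c d T ε z.1 z.2‖ ^ 2 / 2 *
      rho Xi V r a b c d T lm lp ε z.1 z.2))
      ((volume : Measure (ℝ × E2)).restrict (Ioo 0 T ×ˢ (Y '' rect L1 R1 h))) := by
  classical
  refine AEMeasurable.ennreal_ofReal ?_
  have hO := img_open hG hA
  have hS : MeasurableSet (Ioo 0 T ×ˢ (Y '' rect L1 R1 h)) :=
    measurableSet_Ioo.prod hO.measurableSet
  have hc0 : Continuous fun u : E2 => u 0 :=
    EuclideanSpace.proj (𝕜 := ℝ) (0 : Fin 2) |>.continuous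
  have hXc : ContinuousOn (fun z : ℝ × E2 => Xi z.2) (Ioo 0 T ×ˢ (Y '' rect L1 R1 h)) :=
    hG.hXi.continuousOn.comp continuousOn_snd (fun z hz => image_mono hA hz.2)
  have hXm : ∀ z ∈ Ioo 0 T ×ˢ (Y '' rect L1 R1 h), Xi z.2 ∈ rect L R h0 := by
    rintro ⟨t, x⟩ ⟨-, u, hu, rfl⟩
    show Xi (Y u) ∈ rect L R h0
    rw [hG.left u (hA hu)]
    exact hA hu
  have a1 : AEMeasurable (fun z : ℝ × E2 => (Xi z.2) 0)
      ((volume : Measure (ℝ × E2)).restrict (Ioo 0 T ×ˢ (Y '' rect L1 R1 h))) :=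
    (hc0.comp_continuousOn hXc).aemeasurable hS
  have a2 : AEMeasurable (fun z : ℝ × E2 => V (Xi z.2))
      ((volume : Measure (ℝ × E2)).restrict (Ioo 0 T ×ˢ (Y '' rect L1 R1 h))) :=
    (hG.hV.comp hXc hXm).aemeasurable hS
  have a3 : AEMeasurable (fun z : ℝ × E2 => r (Xi z.2))
      ((volume : Measure (ℝ × E2)).restrict (Ioo 0 T ×ˢ (Y '' rect L1 R1 h))) :=
    (hG.hr.comp hXc hXm).aemeasurable hS
  have a4 : AEMeasurable (fun z : ℝ × E2 => gp a b c d ((Xi z.2) 0))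
      ((volume : Measure (ℝ × E2)).restrict (Ioo 0 T ×ˢ (Y '' rect L1 R1 h))) :=
    hgp.measurable.comp_aemeasurable a1
  have a5 : AEMeasurable (fun z : ℝ × E2 => gg a b c d ((Xi z.2) 0))
      ((volume : Measure (ℝ × E2)).restrict (Ioo 0 T ×ˢ (Y '' rect L1 R1 h))) :=
    hgg.measurable.comp_aemeasurable a1
  have hχ : Measurable ((Ioi (0 : ℝ)).indicator (fun _ => (1 : ℝ))) :=
    measurable_const.indicator measurableSet_Ioi
  have a6 : AEMeasurable (fun z : ℝ × E2 =>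
      (Ioi (0 : ℝ)).indicator (fun _ => (1 : ℝ)) ((Xi z.2) 0 - (lm + z.1)))
      ((volume : Measure (ℝ × E2)).restrict (Ioo 0 T ×ˢ (Y '' rect L1 R1 h))) :=
    hχ.comp_aemeasurable (by fun_prop)
  have a7 : AEMeasurable (fun z : ℝ × E2 =>
      (Ioi (0 : ℝ)).indicator (fun _ => (1 : ℝ)) ((lp + z.1) - (Xi z.2) 0))
      ((volume : Measure (ℝ × E2)).restrict (Ioo 0 T ×ˢ (Y '' rect L1 R1 h))) :=
    hχ.comp_aemeasurable (by fun_prop)
  have a8 : AEMeasurable (fun z : ℝ × E2 =>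
      (Ioi (0 : ℝ)).indicator (fun _ => (1 : ℝ)) ((Xi z.2) 0 - (lm + z.1)) *
      (Ioi (0 : ℝ)).indicator (fun _ => (1 : ℝ)) ((lp + z.1) - (Xi z.2) 0) *
      (((1 + ε * ((T - 2 * z.1) * gg a b c d ((Xi z.2) 0))) /
      (1 + ε * (-(z.1 * (T - z.1)) * gp a b c d ((Xi z.2) 0)) * V (Xi z.2) ^ 2)) ^ 2 *
        V (Xi z.2) ^ 2 / 2 * (r (Xi z.2) *
        (1 + ε * (-(z.1 * (T - z.1)) * gp a b c d ((Xi z.2) 0)) * V (Xi z.2) ^ 2))))
      ((volume : Measure (ℝ × E2)).restrict (Ioo 0 T ×ˢ (Y '' rect L1 R1 h))) := by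
    have hz : AEMeasurable (fun z : ℝ × E2 => z.1)
      ((volume : Measure (ℝ × E2)).restrict (Ioo 0 T ×ˢ (Y '' rect L1 R1 h))) :=
      measurable_fst.aemeasurable
    exact aem_aux hz a2 a3 a4 a5 a6 a7
  refine a8.congr ?_
  refine ae_restrict_of_forall_mem hS ?_
  rintro ⟨t, x⟩ ⟨-, u, hu, rfl⟩
  show _ = ‖vel Y Xi V a b c d T ε t (Y u)‖ ^ 2 / 2 * rho Xi V r a b c d T lm lp ε t (Y u)
  rw [dens hG t (hA hu)]
  unfold rho et Th
  simp only [hG.left u (hA hu)]
  by_cases h1 : lm + t < u 0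
  · by_cases h2 : u 0 < lp + t
    · rw [if_pos ⟨h1, h2⟩, indicator_of_mem (by simpa using h1), indicator_of_mem (by simpa using h2)]
      ring
    · rw [if_neg (fun h => h2 h.2), indicator_of_notMem (s := Ioi 0) (a := (lp + t - u 0)) (by simpa using h2)]
      ring
  · rw [if_neg (fun h => h1 h.1), indicator_of_notMem (s := Ioi 0) (a := (u 0 - (lm + t))) (by simpa using h1)]
    ring

/-- the energy in the coordinates -/
lemma kin_eq (hCV : TaskCV) (hG : Geo Y Xi V r L R h0)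
    (hA : rect L1 R1 h ⊆ rect L R h0)
    (hgp : Continuous (gp a b c d)) (hgg : Continuous (gg a b c d))
    (hB : ∀ t ∈ Ioo 0 T, Bd a b c d T M t) (hε : 0 ≤ ε) (hεM : ε * M ≤ 1 / 2)
    (hl : L1 ≤ lm) (hr : lp + T ≤ R1) :
    Kin (Y '' rect L1 R1 h) T (rho Xi V r a b c d T lm lp ε) (vel Y Xi V a b c d T ε) =
    (∫⁻ t in Ioo 0 T,
      ENNReal.ofReal (∫ u in rect (lm + t) (lp + t) h, w V a b c d T ε t u)).toReal := by
  unfold Kin
  congr 1
  rw [Measure.volume_eq_prod, setLIntegral_prod _ (by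
    rw [← Measure.volume_eq_prod]
    exact aem hG hA hgp hgg)]
  refine setLIntegral_congr_fun measurableSet_Ioo fun t ht => ?_
  exact inner_eq hCV hG hA hgp hgg (hB t ht) hε hεM (by linarith [ht.1]) (by linarith [ht.2])

lemma kin_zero (hCV : TaskCV) (hG : Geo Y Xi V r L R h0)
    (hA : rect L1 R1 h ⊆ rect L R h0)
    (hgp : Continuous (gp a b c d)) (hgg : Continuous (gg a b c d))
    (hB : ∀ t ∈ Ioo 0 T, Bd a b c d T M t)
    (hl : L1 ≤ lm) (hr : lp + T ≤ R1) (hh : 0 < h) (hlp : lm < lp) (hT : 0 < T) :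
    Kin (Y '' rect L1 R1 h) T (rho Xi V r a b c d T lm lp 0) (vel Y Xi V a b c d T 0) =
    h * (lp - lm) * T := by
  rw [kin_eq hCV hG hA hgp hgg hB le_rfl (by simp) hl hr]
  have h1 : ∀ t ∈ Ioo 0 T, ENNReal.ofReal (∫ u in rect (lm + t) (lp + t) h,
      w V a b c d T 0 t u) = ENNReal.ofReal (h * (lp - lm)) := by
    intro t ht
    congr 1
    have h2 : ∀ u : E2, w V a b c d T 0 t u = (fun _ : ℝ => (1 / 2 : ℝ)) (u 0) := by
      intro u
      unfold w
      norm_num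
    simp_rw [h2]
    rw [int_rect _ _ _ hh (fun _ : ℝ => (1 / 2 : ℝ))]
    simp only [integral_const, MeasurableSet.univ, measureReal_restrict_apply, univ_inter,
      Real.volume_real_Ioo, smul_eq_mul]
    rw [max_eq_left (by linarith)]
    ring
  rw [setLIntegral_congr_fun measurableSet_Ioo h1, lintegral_const, Measure.restrict_apply
    MeasurableSet.univ, univ_inter, Real.volume_Ioo, ENNReal.toReal_mul,
    ENNReal.toReal_ofReal (mul_nonneg hh.le (by linarith)), ENNReal.toReal_ofReal (by linarith)]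
  ring

lemma cubic_int (P Q1 Q2 T : ℝ) (hT : 0 < T) :
    IntegrableOn (fun t : ℝ => P + Q1 * (T - 2 * t) + Q2 * (t * (T - t))) (Ioo 0 T) ∧
    ∫ t in Ioo 0 T, (P + Q1 * (T - 2 * t) + Q2 * (t * (T - t))) = P * T + Q2 * (T ^ 3 / 6) := by
  have hc : Continuous (fun t : ℝ => P + Q1 * (T - 2 * t) + Q2 * (t * (T - t))) := by fun_prop
  refine ⟨(hc.integrableOn_Icc (a := 0) (b := T)).mono_set Ioo_subset_Icc_self, ?_⟩
  rw [← integral_Ioc_eq_integral_Ioo, ← intervalIntegral.integral_of_le hT.le]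
  rw [intervalIntegral.integral_eq_sub_of_hasDerivAt
    (f := fun t => P * t + Q1 * (T * t - t ^ 2) + Q2 * (T * (t ^ 2 / 2) - t ^ 3 / 3))
    (fun t _ => ?_) (hc.intervalIntegrable _ _)]
  · ring
  · have h1 := ((hasDerivAt_id t).const_mul P)
    have h2 := (((hasDerivAt_id t).const_mul T).sub ((hasDerivAt_id t).pow 2)).const_mul Q1
    have h3 := (((((hasDerivAt_id t).pow 2).div_const 2).const_mul T).sub
      (((hasDerivAt_id t).pow 3).div_const 3)).const_mul Q2
    convert! (h1.add h2).add h3 using 1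
    push_cast
    simp only [id]
    ring

end main

theorem kin : TaskKin := by
  intro hCV hprof Y Xi V r L R h0 L1 R1 h cL cR a b c d lm lp T ϑ hG hP
  have hab := hP.o5
  have hbc : b < c := hP.o6.trans hP.o7
  have hcd := hP.o8
  have hT := hP.hT
  have hh := hP.hh
  have hϑ := hP.hϑ
  obtain ⟨M, hM1, hB⟩ := bounds hprof hab hbc hcd hT
  obtain ⟨hgp, hgd, hg0, hg1, -, hgp0, hgpp, hgpn, -, i1, i2⟩ := hprof a b c d T hab hbc hcd hT
  have hgg : Continuous (gg a b c d) := continuous_iff_continuousAt.mpr fun x =>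
    (hgd x).continuousAt
  have hA : rect L1 R1 h ⊆ rect L R h0 := rect_mono hP.o1.le hP.o11.le hP.hh0.le
  have hlp : lm < lp := by linarith [hP.o3, hP.o4, hP.o5, hP.o6, hP.o7, hP.o8, hP.o9]
  have hz := kin_zero hCV hG hA hgp hgg hB hP.o2.le hP.o10.le hh hlp hT
  refine ⟨min (1 / (2 * M)) (ϑ * T ^ 2 / (96 * M ^ 2 * (lp - lm))), ?_, ?_⟩
  · have h1 : 0 < lp - lm := by linarith
    exact lt_min (by positivity) (by positivity)
  intro ε hε hεle
  have hεM : ε * M ≤ 1 / 2 := by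
    have h1 := hεle.trans (min_le_left _ _)
    rw [le_div_iff₀ (by positivity)] at h1
    linarith
  have hε2 : ε * (96 * M ^ 2 * (lp - lm)) ≤ ϑ * T ^ 2 := by
    have h1 := hεle.trans (min_le_right _ _)
    have h2 : 0 < lp - lm := by linarith
    rwa [le_div_iff₀ (by positivity)] at h1
  rw [hz, kin_eq hCV hG hA hgp hgg hB hε.le hεM hP.o2.le hP.o10.le]
  set G : ℝ := ∫ x in a..d, gg a b c d x with hGdef
  -- the upper bound for each time
  have hub : ∀ t ∈ Ioo 0 T, ∫ u in rect (lm + t) (lp + t) h, w V a b c d T ε t u ≤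
      2 * h * (lp - lm) * (1 / 2 + 4 * M ^ 2 * ε ^ 2) + 2 * h * ε * G * (T - 2 * t) +
        (-(h * ε * ϑ)) * (t * (T - t)) := by
    intro t ht
    have hBt := hB t ht
    have hBA : rect (lm + t) (lp + t) h ⊆ rect L1 R1 h :=
      rect_mono (by linarith [ht.1, hP.o2]) (by linarith [ht.2, hP.o10]) le_rfl
    have hint := w_int (ε := ε) hG.hV hG.Vpos hgp hgg hBt hε.le hεM (hBA.trans hA)
    have htt : 0 ≤ t * (T - t) := mul_nonneg ht.1.le (by linarith [ht.2])
    obtain ⟨hpi, hpsi⟩ := psi_int (l := lm + t) (r := lp + t) (A := 1 / 2 + 4 * M ^ 2 * ε ^ 2)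
      (B := ε * (T - 2 * t)) (D := ε * (t * (T - t) / 2)) (ϑ := ϑ) hgp hgg
      (by linarith [ht.2, hP.o3, hP.o4]) hab hbc hcd (by linarith [ht.1, hP.o9]) i1 i2
    set ψ : ℝ → ℝ := fun x => 1 / 2 + 4 * M ^ 2 * ε ^ 2 +
          ε * (T - 2 * t) * (Ioc a d).indicator (gg a b c d) x +
          ε * (t * (T - t) / 2) * ((1 - ϑ) * (Ioc a b).indicator (gp a b c d) x +
            (Ioc c d).indicator (gp a b c d) x) with hψ
    have hle : ∫ u in rect (lm + t) (lp + t) h, w V a b c d T ε t u ≤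
        ∫ u in rect (lm + t) (lp + t) h, ψ (u 0) := by
      refine setIntegral_mono_on hint (rect_intble hpi) (rect_meas _ _ _) fun u hu => ?_
      have huA := hA (hBA hu)
      obtain ⟨-, -, h1, -⟩ := w_bd hBt hε.le hεM (hG.Vpos u huA)
      refine h1.trans ?_
      have h2 : Th a b c d T t (u 0) = (T - 2 * t) * (Ioc a d).indicator (gg a b c d) (u 0) := by
        unfold Th
        by_cases h3 : u 0 ∈ Ioc a d
        · rw [indicator_of_mem h3]
        · rw [indicator_of_notMem h3]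
          congr 1
          rw [mem_Ioc, not_and_or, not_lt, not_le] at h3
          rcases h3 with h3 | h3
          · exact hg0 _ h3
          · exact hg1 _ h3.le
      have h3 : gp a b c d (u 0) * V u ^ 2 ≤ (1 - ϑ) * (Ioc a b).indicator (gp a b c d) (u 0) +
            (Ioc c d).indicator (gp a b c d) (u 0) := by
        rcases le_or_gt (u 0) a with h4 | h4
        · rw [hgp0 _ (Or.inl h4), indicator_of_notMem (fun h => absurd h.1 (by linarith)),
            indicator_of_notMem (fun h => absurd h.1 (by linarith))]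
          simp
        rcases lt_or_ge (u 0) b with h5 | h5
        · rw [indicator_of_mem (s := Ioc a b) ⟨h4, h5.le⟩,
            indicator_of_notMem (fun h => absurd h.1 (by linarith))]
          have h6 := hP.Vc u (rect_mono hP.o1.le hP.o11.le hP.hh0.le (hBA hu)) h4 h5
          nlinarith [hgpp _ h4 h5, mul_le_mul_of_nonneg_left h6 (hgpp _ h4 h5)]
        rcases le_or_gt (u 0) c with h6 | h6
        · have h7 := hgp0 _ (Or.inr (Or.inr ⟨h5, h6⟩))
          rw [h7, indicator_of_notMem (s := Ioc c d) (fun h => absurd h.1 (by linarith)), zero_mul,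
            indicator_apply]
          split_ifs
          · rw [h7]; simp
          · simp
        rcases lt_or_ge (u 0) d with h7 | h7
        · rw [indicator_of_notMem (s := Ioc a b) (fun h => absurd h.2 (by linarith)),
            indicator_of_mem (s := Ioc c d) ⟨h6, h7.le⟩]
          rw [(hP.Vr u huA (by linarith [hP.o7])).1]
          simp
        · have h8 := hgp0 _ (Or.inr (Or.inl h7))
          rw [h8, zero_mul, indicator_of_notMem (s := Ioc a b) (fun h => absurd h.2 (by linarith)),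
            indicator_apply]
          split_ifs
          · rw [h8]; simp
          · simp
      rw [h2, hψ]
      have h4 : ε * (t * (T - t) / 2) * (gp a b c d (u 0) * V u ^ 2) ≤ ε * (t * (T - t) / 2) *
          ((1 - ϑ) * (Ioc a b).indicator (gp a b c d) (u 0) +
            (Ioc c d).indicator (gp a b c d) (u 0)) := by
        refine mul_le_mul_of_nonneg_left h3 ?_
        positivity
      have h5 : et a b c d T t (u 0) * V u ^ 2 / 2 =
        -((t * (T - t) / 2) * (gp a b c d (u 0) * V u ^ 2)) := by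
        unfold et
        ring
      rw [h5]
      simp only
      linarith
    refine hle.trans (le_of_eq ?_)
    rw [int_rect _ _ _ hh ψ, hpsi, ← hGdef]
    ring
  obtain ⟨hci, hcv⟩ := cubic_int (2 * h * (lp - lm) * (1 / 2 + 4 * M ^ 2 * ε ^ 2)) (2 * h * ε * G)
    (-(h * ε * ϑ)) T hT
  have hnn : ∀ t ∈ Ioo 0 T, 0 ≤ 2 * h * (lp - lm) * (1 / 2 + 4 * M ^ 2 * ε ^ 2) +
      2 * h * ε * G * (T - 2 * t) + (-(h * ε * ϑ)) * (t * (T - t)) := by
    intro t ht
    refine le_trans (setIntegral_nonneg (rect_meas _ _ _) fun u hu => ?_) (hub t ht)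
    have hBA : rect (lm + t) (lp + t) h ⊆ rect L1 R1 h :=
      rect_mono (by linarith [ht.1, hP.o2]) (by linarith [ht.2, hP.o10]) le_rfl
    exact (w_bd (hB t ht) hε.le hεM (hG.Vpos u (hA (hBA hu)))).2.1
  have h1 : ∫⁻ t in Ioo 0 T, ENNReal.ofReal (∫ u in rect (lm + t) (lp + t) h,
      w V a b c d T ε t u) ≤ ENNReal.ofReal
      (2 * h * (lp - lm) * (1 / 2 + 4 * M ^ 2 * ε ^ 2) * T + (-(h * ε * ϑ)) * (T ^ 3 / 6)) := by
    rw [← hcv, ofReal_integral_eq_lintegral_ofReal hci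
      (ae_restrict_of_forall_mem measurableSet_Ioo hnn)]
    exact setLIntegral_mono' measurableSet_Ioo fun t ht => ENNReal.ofReal_le_ofReal (hub t ht)
  have h2 : 0 ≤ 2 * h * (lp - lm) * (1 / 2 + 4 * M ^ 2 * ε ^ 2) * T +
      (-(h * ε * ϑ)) * (T ^ 3 / 6) := by
    rw [← hcv]
    exact setIntegral_nonneg measurableSet_Ioo hnn
  refine lt_of_le_of_lt (ENNReal.toReal_mono ENNReal.ofReal_ne_top h1) ?_
  rw [ENNReal.toReal_ofReal h2]
  have h3 : 0 < lp - lm := by linarith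
  have h4 : 2 * h * ε * T * (4 * (ε * M ^ 2 * (lp - lm))) < 2 * h * ε * T * (ϑ * T ^ 2 / 12) := by
    refine mul_lt_mul_of_pos_left ?_ (by positivity)
    have : 0 < ϑ * T ^ 2 := by positivity
    nlinarith [hε2]
  nlinarith [h4]

end H870N.K9
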